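import Pool.Agent.Helper25.SEY.Sc
import Pool.Agent.Helper1.SEY.Ear
import Pool.Agent.Helper1.SEY.BgHas

/-!
Block BG (helper1), section 1 of /team-store/helper25_SEY.md.
-/

namespace SEY

open Finset

variable {E : Type} [Fintype E] [DecidableEq E]

/-- The ear theorem. -/
theorem bg (M : BM E) (h : M.TC) (Q : Finset E → Prop)
    (mono : ∀ A B : Finset E, A ⊆ B → B ⊆ M.S → Q A → Q B)
    (sw : ∀ (A : Finset E) (x : E) (P : Finset E), A ⊆ M.S → x ∈ A → Ear M A P →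
      ind (insert x P) ∈ M.Z → Q A → Q (A.erase x ∪ P))
    (A0 : Finset E) (hA0 : A0 ⊂ M.S) (hsc : (M.res A0).SC) (hQ : Q A0) :
    ∃ e ∈ M.S, (M.del {e}).SC ∧ Q (M.S.erase e) :=
  BG.bg_main M h Q mono sw A0 hA0 hsc hQ

theorem bg_has {r k : ℕ} (rows : Fin r → Fin k → ZMod 2) (h0 : (ofRows rows).TC) (M : BM E)
    (h : M.TC) (hT : HasT rows M) (hI : ¬ IsIso rows M) :
    ∃ e ∈ M.S, (M.del {e}).SC ∧ HasT rows (M.del {e}) :=
  BG.bg_has_main rows h0 M h hT hI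

end SEY
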