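import Pool.Agent.Helper25.SEY.Sc
import Pool.Agent.Helper1.SEY.ConvFin
import Pool.Agent.Helper1.SEY.K4Start

/-!
Block CONV (helper1), section 1 of /team-store/helper25_SEY.md.
-/

namespace SEY

open Finset

variable {E : Type} [Fintype E] [DecidableEq E]

theorem conv_K4 (M : BM E) (hF : NoF M) (h : HasMinor K4 M) : HasT K4 M :=
  CV.conv_K4 M hF h

theorem conv_K33 (M : BM E) (hF : NoF M) (h : HasMinor K33 M) : HasT K33 M :=
  CV.conv_K33 M hF h

theorem K4_start (M : BM E) (h : M.TC) (hF : ¬ HasMinor F7s M) : HasT K4 M :=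
  CV.K4_start M h hF

end SEY
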