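import Pool.Agent.Helper25.SEY.Sc
import Pool.Agent.Helper39.SEY.FrGraphic
import Pool.Agent.Helper39.SEY.FrExists
import Pool.Agent.Helper39.SEY.FrMinor
import Pool.Agent.Helper39.SEY.FrSep
import Pool.Agent.Helper39.SEY.FrStar2
import Pool.Agent.Helper39.SEY.FrGraft
import Pool.Agent.Helper39.SEY.FrGraft2
import Pool.Agent.Helper39.SEY.FrExtg
import Pool.Agent.Helper39.SEY.FrUniq
import Pool.Agent.Helper39.SEY.FrCrit

/-!
Block FRAME (helper39), section 2 of /team-store/helper25_SEY.md.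

The definitions `Jn`, `mg`, `swT` are in Helper39/SEY/FDefs.lean. Theorems (all statements as in the
interface):

* FrGraphic: `Graphic_con`, `Graphic_del`, `Graphic_of_con`, `Graphic_of_IsIso`, `Graphic_of_IsGr`;
* FrExists: `exists_IsGr`, `K4_gr`, `K33_gr`;
* FrMinor: `IsGr.star_mem`, `IsGr.del`, `IsGr.con`, `IsGr.congr`;
* FrSep: `IsGr.sep`, `IsGr.card_U`, `IsGr.two_le_deg`, `IsGr.no_par`;
* FrStar2: `IsGr.star2`, `IsGr.deg2`;
* FrGraft: `exists_graft`, `IsGraft.star_mem`, `IsGraft.graphic`;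
* FrGraft2: `IsGraft.del`, `IsGraft.con`, `IsGraft.congr`, `IsGraft.swap`;
* FrCrit: `crit`; FrExtg: `extg`; FrUniq: `uniq`, `uniqSw`.

Library (GrBasic): `cob_mem`, `cob_add`, `cob_const`, `cob_congr`, `mask_cob`, `indV`, `Inc`, `mem_star`,
`cob_indV_disj`, `cob_indV_sub`, `cob_indV_one`, `IsGr.exists_indV`, `IsGr.cob_singleton`, `IsGr.two_ends`,
`inc_le`, `IsGr.r_lt`, `IsGr.rank`; FrUniq: `jn_of_inc`, `jn_inc_left`, `jn_inc_right`, `IsGr.star_inj`.
-/
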