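import Pool.Agent.Helper25.SEY.Defs
import Pool.Agent.Helper73.SEY.SpFin
import Pool.Agent.Helper35.SEY.IndMain

/-!
Block IND (helper35), section 5 of /team-store/helper25_SEY.md: induced separations.
-/

namespace SEY

open Finset

variable {E : Type} [Fintype E] [DecidableEq E]

theorem R12_sep (M : BM E) (hF : NoF M) (h : HasMinor R12 M) :
    ∃ A ⊆ M.S, 6 ≤ A.card ∧ 6 ≤ (M.S \ A).card ∧ M.lam A ≤ 2 :=
  Ind.R12_sep' M hF h

theorem R10_split (M : BM E) (hTC : M.TC) (hF : NoF M) (h : HasMinor R10 M) : IsIso R10 M :=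
  Sp.R10_split' M hTC hF h

theorem K5_split (M : BM E) (hTC : M.TC) (hF : NoF M) (hK : ¬ HasMinor K33 M)
    (h : HasMinor K5 M) : IsIso K5 M :=
  Sp.K5_split' M hTC hF hK h

end SEY
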