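import Pool.Agent.Helper25.SEY.T3
import Pool.Agent.Helper25.SEY.Ind
import Pool.Agent.Helper70.SEY.Level2

/-!
Block LEVEL (helper70), section 4 of /team-store/helper25_SEY.md.
-/

namespace SEY

open Finset

variable {E : Type} [Fintype E] [DecidableEq E]

/-- Level 1. -/
theorem level1 (M : BM E) (hTC : M.TC) (hF : NoF M) (hG : ¬ Graphic M) :
    HasMinor K33s M ∨ HasMinor K5s M :=
  level1' M hTC hF hG

/-- Level 2. -/
theorem level2 (M : BM E) (hTC : M.TC) (hF : NoF M) (hG : ¬ Graphic M)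
    (hG' : ¬ Graphic M.dual) : HasMinor R10 M ∨ HasMinor R12 M :=
  level2' M hTC hF hG hG'

/-- Seymour's theorem for 3-connected binary matroids without Fano and dual Fano minors. -/
theorem seymour (M : BM E) (hTC : M.TC) (hF : NoF M) :
    Graphic M ∨ Graphic M.dual ∨ IsIso R10 M ∨
      ∃ A ⊆ M.S, 6 ≤ A.card ∧ 6 ≤ (M.S \ A).card ∧ M.lam A ≤ 2 :=
  seymour' M hTC hF

end SEY
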