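import Pool.Agent.Helper25.SEY.Level
import Pool.Agent.Helper59.RC.Defs
import Pool.Agent.Helper9.UB.Main

/-!
Block INTER (helper9), section 6 of /team-store/helper25_SEY.md.  Proof in Helper9/UB.
-/

namespace SEY

/-- Every finite unimodular set is decomposable. -/
theorem uni_dec {V : Type} [AddCommGroup V] [Module ℚ V] (X : Set V) (hfin : X.Finite)
    (hU : RC.Uni X) : RC.Dec V X :=
  UB.uni_dec X hfin hU

end SEY
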