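import Pool.Agent.Helper25.SEY.Defs
import Pool.Agent.Helper38.SEY.Delta
import Pool.Agent.Helper38.SEY.Outside
import Pool.Agent.Helper38.SEY.Quad

/-!
Block LINK (helper38), section 0.1 of /team-store/helper25_SEY.md: Tutte's linking theorem,
preservation, Delta lemma, quads.  Block theorems (to be proved word for word).
-/

namespace SEY

open Finset

variable {E : Type} [Fintype E] [DecidableEq E]

/-- Tutte's linking theorem. -/
theorem linking (M : BM E) (X Y : Finset E) (hX : X ⊆ M.S) (hY : Y ⊆ M.S) (hd : Disjoint X Y)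
    (k : ℕ) (h : ∀ A, X ⊆ A → A ⊆ M.S → Disjoint A Y → k ≤ M.lam A) :
    ∃ C D : Finset E, Disjoint C D ∧ Disjoint C (X ∪ Y) ∧ Disjoint D (X ∪ Y) ∧
      X ∪ Y ∪ C ∪ D = M.S ∧ k ≤ ((M.con C).del D).lam X :=
  lk_linking M X Y hX hY hd k h

/-- Preservation: if the connectivity of `X` does not drop, contracted sets are skew to `X`. -/
theorem preserve (M : BM E) (X C D : Finset E) (hX : X ⊆ M.S) (hC : C ⊆ M.S) (hCX : Disjoint C X)
    (hDX : Disjoint D X) (h : M.lam X ≤ ((M.con C).del D).lam X) :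
    (∀ f ∈ M.R, ∃ f' ∈ M.R, (∀ c ∈ C, f' c = 0) ∧ ∀ x ∈ X, f' x = f x) ∧
      ∀ g : E → ZMod 2, (∀ e, e ∉ X → g e = 0) → g ∈ ((M.con C).del D).R → g ∈ M.R :=
  lk_preserve M X C D hX hC hCX hDX h

/-- In a 3-connected matroid the complement of a set `W` with connectivity 2 is dependent, if it
has at least four elements. -/
theorem exists_cycle_outside (M : BM E) (h : M.TC) (W : Finset E) (hWS : W ⊆ M.S)
    (hW : M.lam W = 2) (hc : 4 ≤ (M.S \ W).card) :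
    ∃ z ∈ M.Z, z ≠ 0 ∧ ∀ e ∈ W, z e = 0 :=
  exists_cycle_outside' M h W hWS hW hc

/-- The Delta lemma. -/
theorem delta (M : BM E) (h : M.TC) (W : Finset E) (hWS : W ⊆ M.S) (hW : M.lam W = 2)
    (hz : ∃ z ∈ M.Z, z ≠ 0 ∧ ∀ e ∈ W, z e = 0) :
    ∃ (d : Fin 3 → E) (C : Finset E), Function.Injective d ∧
      (∀ i, d i ∈ M.S ∧ d i ∉ W ∧ d i ∉ C) ∧ C ⊆ M.S ∧ Disjoint C W ∧
      (∀ f ∈ M.R, (∀ c ∈ C, f c = 0) → f (d 0) + f (d 1) + f (d 2) = 0) ∧
      (∀ f ∈ M.R, ∃ f' ∈ M.R, (∀ c ∈ C, f' c = 0) ∧ ∀ x ∈ W, f' x = f x) ∧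
      (∀ f ∈ M.R, (∀ c ∈ C, f c = 0) → (∀ i, f (d i) = 0) →
        ∃ g ∈ M.R, (∀ e, e ∉ W → g e = 0) ∧ ∀ x ∈ W, g x = f x) ∧
      (∀ p : Fin 3 → ZMod 2, p 0 + p 1 + p 2 = 0 →
        ∃ f ∈ M.R, (∀ c ∈ C, f c = 0) ∧ ∀ i, f (d i) = p i) :=
  lk_delta M h W hWS hW hz

/-- A quad (cycle and cocycle with four elements) gives an `F7`-minor. -/
theorem quad_F7 (M : BM E) (h : M.TC) (q : Fin 4 → E) (hq : Function.Injective q)
    (hS : ∀ i, q i ∈ M.S) (hz : ∀ f ∈ M.R, ∑ i, f (q i) = 0)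
    (hr : ind (Finset.univ.image q) ∈ M.R) (hc : 8 ≤ M.S.card) : HasMinor F7 M := by
  obtain ⟨h1, h2, h3⟩ := quad_facts M h q hq hS hz hr hc
  have hWS : Finset.univ.image q ⊆ M.S := by
    intro e he
    obtain ⟨i, -, rfl⟩ := Finset.mem_image.1 he
    exact hS i
  have hc4 : (Finset.univ.image q).card = 4 := by
    rw [Finset.card_image_of_injective _ hq]
    simp
  have h4 := Finset.card_sdiff_add_card_eq_card hWS
  obtain ⟨d, C, hd, hdS, hCS, hCW, D1, D2, D3, D4⟩ := delta M h _ hWS h1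
    (exists_cycle_outside M h _ hWS h1 (by omega))
  exact quad_of_delta M q hq hS hz hr h2 h3 d C hd hdS hCS hCW D1 D2 D3 D4

end SEY
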